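import Mathlib

namespace Pool.Agent.MP_811ee8_lc.H81

/-- Boolean formulas over the variables `V`. -/
inductive Form (V : Type) : Type
  | var : V → Form V
  | top : Form V
  | bot : Form V
  | neg : Form V → Form V
  | and : Form V → Form V → Form V
  | or : Form V → Form V → Form V

/-- Truth of a formula in a state (the set of true variables). -/
def Form.Sat {V : Type} (s : Set V) : Form V → Prop
  | .var p => p ∈ s
  | .top => True
  | .bot => False
  | .neg a => ¬ a.Sat s
  | .and a b => a.Sat s ∧ b.Sat s
  | .or a b => a.Sat s ∨ b.Sat s

/-- Number of symbols of a formula; a binary connective counts with its two parentheses. -/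
def Form.len {V : Type} : Form V → ℕ
  | .var _ => 1
  | .top => 1
  | .bot => 1
  | .neg a => a.len + 1
  | .and a b => a.len + b.len + 3
  | .or a b => a.len + b.len + 3

/-- Mental programs over `V`. -/
inductive Prog (V : Type) : Type
  | setTrue : V → Prog V
  | setFalse : V → Prog V
  | test : Form V → Prog V
  | union : Prog V → Prog V → Prog V
  | seq : Prog V → Prog V → Prog V
  | inter : Prog V → Prog V → Prog V

/-- The relation on states denoted by a program. -/
def Prog.Rel {V : Type} : Prog V → Set V → Set V → Prop
  | .setTrue p, s, t => t = s ∪ {p}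
  | .setFalse p, s, t => t = s \ {p}
  | .test a, s, t => t = s ∧ a.Sat s
  | .union a b, s, t => a.Rel s t ∨ b.Rel s t
  | .seq a b, s, t => ∃ u, a.Rel s u ∧ b.Rel u t
  | .inter a b, s, t => a.Rel s t ∧ b.Rel s t

/-- Number of symbols of a program; a binary operator counts with its two parentheses. -/
def Prog.len {V : Type} : Prog V → ℕ
  | .setTrue _ => 3
  | .setFalse _ => 3
  | .test a => a.len + 1
  | .union a b => a.len + b.len + 3
  | .seq a b => a.len + b.len + 3
  | .inter a b => a.len + b.len + 3

/-- Ordered binary decision diagrams over the variables `X`, with `size` nodes. A node is a leaf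
labelled by a truth value, or is labelled by a variable, its low child and its high child.
Variables strictly increase along edges in the linear order given by `rank`. -/
structure BDD (X : Type) : Type where
  size : ℕ
  node : Fin size → Bool ⊕ (X × Fin size × Fin size)
  root : Fin size
  rank : X → ℕ
  rank_inj : Function.Injective rank
  ordered : ∀ i x l h, node i = .inr (x, l, h) → ∀ j, j = l ∨ j = h →
    ∀ y l' h', node j = .inr (y, l', h') → rank x < rank y

open Classical in
/-- One step of the evaluation under the assignment whose set of true variables is `a`. -/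
noncomputable def BDD.next {X : Type} (Ω : BDD X) (a : Set X) (i : Fin Ω.size) : Fin Ω.size :=
  match Ω.node i with
  | .inl _ => i
  | .inr (x, l, h) => if x ∈ a then h else l

/-- The assignment `a` satisfies the diagram: the evaluation from the root reaches a true leaf. -/
def BDD.Sat {X : Type} (Ω : BDD X) (a : Set X) : Prop :=
  ∃ k : ℕ, Ω.node ((Ω.next a)^[k] Ω.root) = .inl true

/-- Reduced diagrams: all nodes reachable, no two nodes with equal label, no redundant test. -/
def BDD.Reduced {X : Type} (Ω : BDD X) : Prop :=
  (∀ j, Relation.ReflTransGen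
      (fun i j => ∃ x l h, Ω.node i = .inr (x, l, h) ∧ (j = l ∨ j = h)) Ω.root j) ∧
    Function.Injective Ω.node ∧ ∀ i x l h, Ω.node i = .inr (x, l, h) → l ≠ h

/-- Correct translations; the vocabulary is `Fin n`, and `Sum.inr p` is the primed copy of `p`. -/
def Correct (τ : ∀ n : ℕ, BDD (Fin n ⊕ Fin n) → Prog (Fin n)) : Prop :=
  ∀ (n : ℕ) (Ω : BDD (Fin n ⊕ Fin n)) (s t : Set (Fin n)),
    (τ n Ω).Rel s t ↔ Ω.Sat (Sum.inl '' s ∪ Sum.inr '' t)

end Pool.Agent.MP_811ee8_lc.H81
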