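import Pool.Agent.MP_811ee8_lc.H81.Defs

namespace Pool.Agent.MP_811ee8_lc.H81

def assigned {V : Type} : Prog V → List V
  | .setTrue p => [p]
  | .setFalse p => [p]
  | .test _ => []
  | .union a b => assigned a ++ assigned b
  | .seq a b => assigned a ++ assigned b
  | .inter a b => assigned a ++ assigned b

lemma assigned_len {V : Type} (π : Prog V) : (assigned π).length ≤ π.len := by
  induction π <;> simp only [assigned, Prog.len, List.length_append, List.length_cons,
    List.length_nil] <;> omega

lemma unchanged {V : Type} (π : Prog V) (q : V) (hq : q ∉ assigned π) (s t : Set V)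
    (h : π.Rel s t) : q ∈ s ↔ q ∈ t := by
  induction π generalizing s t with
  | setTrue p =>
    simp only [assigned, List.mem_singleton] at hq
    simp only [Prog.Rel] at h
    subst h; simp [hq]
  | setFalse p =>
    simp only [assigned, List.mem_singleton] at hq
    simp only [Prog.Rel] at h
    subst h; simp [hq]
  | test a =>
    simp only [Prog.Rel] at h
    rw [h.1]
  | union a b iha ihb =>
    simp only [assigned, List.mem_append, not_or] at hq
    rcases h with h | h
    · exact iha hq.1 s t h
    · exact ihb hq.2 s t h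
  | seq a b iha ihb =>
    simp only [assigned, List.mem_append, not_or] at hq
    obtain ⟨u, h1, h2⟩ := h
    exact (iha hq.1 s u h1).trans (ihb hq.2 u t h2)
  | inter a b iha ihb =>
    simp only [assigned, List.mem_append, not_or] at hq
    exact iha hq.1 s t h.1

lemma len_ge {n : ℕ} (π : Prog (Fin n)) (h : π.Rel Set.univ ∅) : n ≤ π.len := by
  have h1 : ∀ q, q ∈ assigned π := by
    intro q
    by_contra hq
    have := unchanged π q hq _ _ h
    simp at this
  have h2 : (Finset.univ : Finset (Fin n)) ⊆ (assigned π).toFinset := fun q _ => by simp [h1 q]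
  have h3 := Finset.card_le_card h2
  have h4 := List.toFinset_card_le (assigned π)
  have h5 := assigned_len π
  simp only [Finset.card_univ, Fintype.card_fin] at h3
  omega

/-- labels of the chain diagram for the conjunction of the first `k` unprimed variables -/
def chainNode (k n : ℕ) (h : k ≤ n) (i : Fin (k + 2)) :
    Bool ⊕ ((Fin n ⊕ Fin n) × Fin (k + 2) × Fin (k + 2)) :=
  if h0 : i.val = 0 then .inl false
  else if h1 : i.val = 1 then .inl true
  else .inr (.inl ⟨i.val - 2, by omega⟩, ⟨0, by omega⟩, ⟨i.val - 1, by omega⟩)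

lemma chainNode_inr {k n : ℕ} {h : k ≤ n} {i : Fin (k + 2)} {x l hi}
    (e : chainNode k n h i = .inr (x, l, hi)) :
    ∃ h2 : 2 ≤ i.val, x = .inl ⟨i.val - 2, by omega⟩ ∧ l.val = 0 ∧ hi.val = i.val - 1 := by
  unfold chainNode at e
  split_ifs at e with h0 h1
  simp only [Sum.inr.injEq, Prod.mk.injEq] at e
  obtain ⟨rfl, rfl, rfl⟩ := e
  exact ⟨by omega, rfl, rfl, rfl⟩

lemma chainNode_ge {k n : ℕ} (h : k ≤ n) (i : Fin (k + 2)) (h2 : 2 ≤ i.val) :
    chainNode k n h i =
      .inr (.inl ⟨i.val - 2, by omega⟩, ⟨0, by omega⟩, ⟨i.val - 1, by omega⟩) := by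
  unfold chainNode
  rw [dif_neg (by omega), dif_neg (by omega)]

def chain (k n : ℕ) (h : k ≤ n) : BDD (Fin n ⊕ Fin n) where
  size := k + 2
  node := chainNode k n h
  root := ⟨k + 1, by omega⟩
  rank := fun x => match x with
    | .inl v => n - v.val
    | .inr v => n + 1 + v.val
  rank_inj := by
    intro x y e
    cases x <;> cases y <;> simp only at e
    · congr 1; ext; omega
    · omega
    · omega
    · congr 1; ext; omega
  ordered := by
    intro i x l hi e j hj y l' h' e'
    obtain ⟨a1, rfl, a2, a3⟩ := chainNode_inr e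
    obtain ⟨b1, rfl, b2, b3⟩ := chainNode_inr e'
    simp only
    have := i.isLt
    rcases hj with rfl | rfl <;> omega

lemma chain_sat (k n : ℕ) (h : k ≤ n) :
    (chain k n h).Sat (Sum.inl '' Set.univ ∪ Sum.inr '' ∅) := by
  have key : ∀ j (hj : j ≤ k), ((chain k n h).next (Sum.inl '' Set.univ ∪ Sum.inr '' ∅))^[j]
      (chain k n h).root = ⟨k + 1 - j, by simp only [chain]; omega⟩ := by
    intro j
    induction j with
    | zero => intro _; rfl
    | succ j ih =>
      intro hj
      rw [Function.iterate_succ_apply', ih (by omega)]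
      unfold BDD.next
      have e : (chain k n h).node ⟨k + 1 - j, by simp only [chain]; omega⟩ = _ :=
        chainNode_ge h ⟨k + 1 - j, by omega⟩ (by simp only; omega)
      rw [e]
      simp only
      rw [if_pos (by simp)]
      rfl
  refine ⟨k, ?_⟩
  rw [key k le_rfl]
  show chainNode k n h _ = _
  unfold chainNode
  rw [dif_neg (by simp), dif_pos (by simp)]
  rfl

lemma chain_reduced (k n : ℕ) (h : k ≤ n) (hk : 1 ≤ k) : (chain k n h).Reduced := by
  refine ⟨?_, ?_, ?_⟩
  · have key : ∀ j (hj : j ≤ k), Relation.ReflTransGen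
        (fun i j => ∃ x l hi, (chain k n h).node i = .inr (x, l, hi) ∧ (j = l ∨ j = hi))
        (chain k n h).root ⟨k + 1 - j, by simp only [chain]; omega⟩ := by
      intro j
      induction j with
      | zero => intro _; exact Relation.ReflTransGen.refl
      | succ j ih =>
        intro hj
        refine (ih (by omega)).tail ⟨_, _, _,
          chainNode_ge h ⟨k + 1 - j, by omega⟩ (by simp only; omega), Or.inr rfl⟩
    intro j
    by_cases h0 : j.val = 0
    · refine Relation.ReflTransGen.single ⟨_, _, _,
        chainNode_ge h ⟨k + 1, by omega⟩ (by simp only; omega), Or.inl (Fin.ext h0)⟩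
    · have hj : j.val < k + 2 := j.isLt
      have := key (k + 1 - j.val) (by omega)
      convert this using 1
      apply Fin.ext
      simp only
      omega
  · intro i j e
    change chainNode k n h i = chainNode k n h j at e
    apply Fin.ext
    unfold chainNode at e
    split_ifs at e <;> first | omega | simp at e
    omega
  · intro i x l hi e
    obtain ⟨a1, -, a2, a3⟩ := chainNode_inr (h := h) e
    intro e'
    rw [e'] at a2
    omega

theorem lower : ∀ τ : ∀ n : ℕ, BDD (Fin n ⊕ Fin n) → Prog (Fin n), Correct τ →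
    ∀ N0 : ℕ, ∃ (n : ℕ) (Ω : BDD (Fin n ⊕ Fin n)),
      Ω.Reduced ∧ N0 ≤ Ω.size ∧ 2 ^ Ω.size ≤ (τ n Ω).len := by
  intro τ hτ N0
  have h : N0 + 1 ≤ 2 ^ (N0 + 1 + 2) := by
    have := Nat.lt_two_pow_self (n := N0 + 1 + 2)
    omega
  refine ⟨2 ^ (N0 + 1 + 2), chain (N0 + 1) _ h, chain_reduced _ _ h (by omega), ?_, ?_⟩
  · simp only [chain]; omega
  · exact len_ge _ ((hτ _ _ _ _).2 (chain_sat _ _ h))

end Pool.Agent.MP_811ee8_lc.H81
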