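import Pool.Agent.MP_811ee8_lc.H81.Defs

namespace Pool.Agent.MP_811ee8_lc.H81

open Filter

def allP {V : Type} : List V → Prog V
  | [] => .test .top
  | p :: ps => .seq (.union (.setTrue p) (.setFalse p)) (allP ps)

lemma allP_rel {V : Type} (ps : List V) (s t : Set V) :
    (allP ps).Rel s t ↔ ∀ q, q ∉ ps → (q ∈ s ↔ q ∈ t) := by
  induction ps generalizing s with
  | nil =>
    simp only [allP, Prog.Rel, Form.Sat, and_true, List.not_mem_nil, not_false_eq_true,
      forall_const]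
    constructor
    · rintro rfl q; rfl
    · intro h; ext q; exact (h q).symm
  | cons p ps ih =>
    simp only [allP, Prog.Rel, ih, List.mem_cons, not_or]
    constructor
    · rintro ⟨u, hu, h⟩ q ⟨h1, h2⟩
      rw [← h q h2]
      rcases hu with rfl | rfl <;> simp [h1]
    · intro h
      by_cases hp : p ∈ t
      · refine ⟨s ∪ {p}, Or.inl rfl, fun q hq => ?_⟩
        by_cases e : q = p
        · subst e; simp [hp]
        · rw [← h q ⟨e, hq⟩]; simp [e]
      · refine ⟨s \ {p}, Or.inr rfl, fun q hq => ?_⟩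
        by_cases e : q = p
        · subst e; simp [hp]
        · rw [← h q ⟨e, hq⟩]; simp [e]

lemma allP_len {V : Type} (ps : List V) : (allP ps).len = 12 * ps.length + 2 := by
  induction ps with
  | nil => rfl
  | cons p ps ih => simp only [allP, Prog.len, ih, List.length_cons]; ring

def univP (n : ℕ) : Prog (Fin n) := allP (List.finRange n)

lemma univP_rel (n : ℕ) (s t : Set (Fin n)) : (univP n).Rel s t := by
  rw [univP, allP_rel]; intro q hq; exact absurd (List.mem_finRange q) hq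

lemma univP_len (n : ℕ) : (univP n).len = 12 * n + 2 := by
  rw [univP, allP_len, List.length_finRange]

def noneP (V : Type) : Prog V := .test .bot

lemma noneP_rel {V : Type} (s t : Set V) : ¬ (noneP V).Rel s t := by
  simp [noneP, Prog.Rel, Form.Sat]

def posP (n : ℕ) : Fin n ⊕ Fin n → Prog (Fin n)
  | .inl p => .seq (.test (.var p)) (univP n)
  | .inr p => .seq (univP n) (.test (.var p))

def negP (n : ℕ) : Fin n ⊕ Fin n → Prog (Fin n)
  | .inl p => .seq (.test (.neg (.var p))) (univP n)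
  | .inr p => .seq (univP n) (.test (.neg (.var p)))

lemma posP_rel (n : ℕ) (x : Fin n ⊕ Fin n) (s t : Set (Fin n)) :
    (posP n x).Rel s t ↔ x ∈ (Sum.inl '' s ∪ Sum.inr '' t : Set (Fin n ⊕ Fin n)) := by
  cases x with
  | inl p => simp [posP, Prog.Rel, Form.Sat, univP_rel]
  | inr p =>
    simp only [posP, Prog.Rel, Form.Sat, univP_rel, true_and]
    constructor
    · rintro ⟨u, rfl, h⟩; simpa using h
    · intro h; exact ⟨t, rfl, by simpa using h⟩

lemma negP_rel (n : ℕ) (x : Fin n ⊕ Fin n) (s t : Set (Fin n)) :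
    (negP n x).Rel s t ↔ x ∉ (Sum.inl '' s ∪ Sum.inr '' t : Set (Fin n ⊕ Fin n)) := by
  cases x with
  | inl p => simp [negP, Prog.Rel, Form.Sat, univP_rel]
  | inr p =>
    simp only [negP, Prog.Rel, Form.Sat, univP_rel, true_and]
    constructor
    · rintro ⟨u, rfl, h⟩; simpa using h
    · intro h; exact ⟨t, rfl, by simpa using h⟩

lemma posP_len (n : ℕ) (x : Fin n ⊕ Fin n) : (posP n x).len ≤ 12 * n + 8 := by
  cases x <;> simp only [posP, Prog.len, Form.len, univP_len] <;> omega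

lemma negP_len (n : ℕ) (x : Fin n ⊕ Fin n) : (negP n x).len ≤ 12 * n + 8 := by
  cases x <;> simp only [negP, Prog.len, Form.len, univP_len] <;> omega

def bigU {V ι : Type} (f : ι → Prog V) : List ι → Prog V
  | [] => noneP V
  | i :: l => .union (f i) (bigU f l)

lemma bigU_rel {V ι : Type} (f : ι → Prog V) (l : List ι) (s t : Set V) :
    (bigU f l).Rel s t ↔ ∃ i ∈ l, (f i).Rel s t := by
  induction l with
  | nil => simp [bigU, noneP_rel]
  | cons i l ih => simp [bigU, Prog.Rel, ih]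

lemma bigU_len {V ι : Type} (f : ι → Prog V) (l : List ι) (B : ℕ) (h : ∀ i, (f i).len ≤ B) :
    (bigU f l).len ≤ l.length * (B + 3) + 2 := by
  induction l with
  | nil => simp [bigU, noneP, Prog.len, Form.len]
  | cons i l ih =>
    have := h i
    simp only [bigU, Prog.len, List.length_cons]
    nlinarith

def stepP {n : ℕ} (Ω : BDD (Fin n ⊕ Fin n)) (i j : Fin Ω.size) : Prog (Fin n) :=
  match Ω.node i with
  | .inl _ => if i = j then univP n else noneP _
  | .inr (x, l, h) =>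
    .union (if h = j then posP n x else noneP _) (if l = j then negP n x else noneP _)

def reachP {n : ℕ} (Ω : BDD (Fin n ⊕ Fin n)) : ℕ → Fin Ω.size → Fin Ω.size → Prog (Fin n)
  | 0, i, j => stepP Ω i j
  | k + 1, i, j => bigU (fun m => .inter (reachP Ω k i m) (reachP Ω k m j)) (List.finRange Ω.size)

lemma stepP_rel {n : ℕ} (Ω : BDD (Fin n ⊕ Fin n)) (i j : Fin Ω.size) (s t : Set (Fin n)) :
    (stepP Ω i j).Rel s t ↔ Ω.next (Sum.inl '' s ∪ Sum.inr '' t) i = j := by
  unfold stepP BDD.next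
  rcases Ω.node i with b | ⟨x, l, h⟩
  · simp only
    split_ifs with e
    · simp [e, univP_rel]
    · simp [e, noneP_rel]
  · simp only [Prog.Rel]
    by_cases hx : x ∈ (Sum.inl '' s ∪ Sum.inr '' t : Set (Fin n ⊕ Fin n))
    · rw [if_pos hx]
      by_cases e1 : h = j <;> by_cases e2 : l = j <;>
        simp only [e1, e2, if_true, if_false, posP_rel, negP_rel, noneP_rel, hx] <;> simp
    · rw [if_neg hx]
      by_cases e1 : h = j <;> by_cases e2 : l = j <;>
        simp only [e1, e2, if_true, if_false, posP_rel, negP_rel, noneP_rel, hx] <;> simp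

lemma stepP_len {n : ℕ} (Ω : BDD (Fin n ⊕ Fin n)) (i j : Fin Ω.size) :
    (stepP Ω i j).len ≤ 24 * (n + 1) := by
  unfold stepP
  have h0 : (noneP (Fin n)).len = 2 := rfl
  rcases Ω.node i with b | ⟨x, l, h⟩
  · simp only
    split_ifs
    · rw [univP_len]; omega
    · omega
  · have h1 := posP_len n x
    have h2 := negP_len n x
    simp only [Prog.len]
    split_ifs <;> omega

lemma reachP_rel {n : ℕ} (Ω : BDD (Fin n ⊕ Fin n)) (k : ℕ) (i j : Fin Ω.size)
    (s t : Set (Fin n)) :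
    (reachP Ω k i j).Rel s t ↔ (Ω.next (Sum.inl '' s ∪ Sum.inr '' t))^[2 ^ k] i = j := by
  induction k generalizing i j with
  | zero => simp [reachP, stepP_rel]
  | succ k ih =>
    simp only [reachP, bigU_rel, Prog.Rel, ih, List.mem_finRange, true_and]
    rw [pow_succ, mul_two, Function.iterate_add_apply]
    constructor
    · rintro ⟨m, rfl, h⟩; exact h
    · intro h; exact ⟨_, rfl, h⟩

lemma reachP_len {n : ℕ} (Ω : BDD (Fin n ⊕ Fin n)) (k : ℕ) (i j : Fin Ω.size) :
    (reachP Ω k i j).len ≤ 24 * (n + 1) * (3 * Ω.size) ^ k := by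
  have hN : 1 ≤ Ω.size := Fin.pos Ω.root
  induction k generalizing i j with
  | zero => simpa [reachP] using stepP_len Ω i j
  | succ k ih =>
    have h1 := bigU_len (fun m => Prog.inter (reachP Ω k i m) (reachP Ω k m j))
      (List.finRange Ω.size) (2 * (24 * (n + 1) * (3 * Ω.size) ^ k) + 3) (fun m => by
        have a := ih i m
        have b := ih m j
        simp only [Prog.len]
        omega)
    rw [List.length_finRange] at h1
    have h2 : 1 ≤ (3 * Ω.size) ^ k := Nat.one_le_pow _ _ (by omega)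
    have h3 : 24 ≤ 24 * (n + 1) * (3 * Ω.size) ^ k := by nlinarith
    simp only [reachP]
    rw [pow_succ, ← mul_assoc]
    generalize 24 * (n + 1) * (3 * Ω.size) ^ k = L at *
    nlinarith

lemma iterate_card_fixed {α : Type} [Fintype α] (f : α → α) (x y : α) (hy : f y = y) (k : ℕ)
    (hk : f^[k] x = y) (M : ℕ) (hM : Fintype.card α ≤ M) : f^[M] x = y := by
  classical
  have hex : ∃ k, f^[k] x = y := ⟨k, hk⟩
  have h1 := Nat.find_spec hex
  have h2 : Nat.find hex + 1 ≤ Fintype.card α := by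
    have key : ∀ a b : ℕ, a < b → b ≤ Nat.find hex → f^[a] x ≠ f^[b] x := by
      intro a b hab hb e
      have : f^[Nat.find hex - b + a] x = y := by
        rw [Function.iterate_add_apply, e, ← Function.iterate_add_apply, Nat.sub_add_cancel hb, h1]
      exact Nat.find_min hex (by omega) this
    have inj : Function.Injective (fun i : Fin (Nat.find hex + 1) => f^[i.val] x) := by
      intro a b e
      rcases lt_trichotomy a.val b.val with h | h | h
      · exact absurd e (key _ _ h (by omega))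
      · exact Fin.ext h
      · exact absurd e.symm (key _ _ h (by omega))
    simpa using Fintype.card_le_of_injective _ inj
  have : M = (M - Nat.find hex) + Nat.find hex := by omega
  rw [this, Function.iterate_add_apply, h1, Function.iterate_fixed hy]

def transl (n : ℕ) (Ω : BDD (Fin n ⊕ Fin n)) : Prog (Fin n) :=
  bigU (fun j => if Ω.node j = .inl true then reachP Ω (Nat.log 2 Ω.size + 1) Ω.root j
    else noneP _) (List.finRange Ω.size)

lemma transl_correct : Correct transl := by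
  intro n Ω s t
  simp only [transl, bigU_rel, List.mem_finRange, true_and, BDD.Sat]
  constructor
  · rintro ⟨j, hj⟩
    split_ifs at hj with e
    · rw [reachP_rel] at hj
      exact ⟨_, by rw [hj]; exact e⟩
    · exact absurd hj (noneP_rel _ _)
  · rintro ⟨k, hk⟩
    refine ⟨(Ω.next (Sum.inl '' s ∪ Sum.inr '' t))^[k] Ω.root, ?_⟩
    · rw [if_pos hk, reachP_rel]
      refine iterate_card_fixed _ _ _ ?_ k rfl _ ?_
      · generalize (Ω.next (Sum.inl '' s ∪ Sum.inr '' t))^[k] Ω.root = y at hk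
        unfold BDD.next
        rw [hk]
      · rw [Fintype.card_fin]
        exact (Nat.lt_pow_succ_log_self (by norm_num) _).le

lemma transl_len (n : ℕ) (Ω : BDD (Fin n ⊕ Fin n)) :
    (transl n Ω).len ≤ 24 * (n + 1) * (3 * Ω.size) ^ (Nat.log 2 Ω.size + 2) := by
  have hN : 1 ≤ Ω.size := Fin.pos Ω.root
  have h2 : 1 ≤ (3 * Ω.size) ^ (Nat.log 2 Ω.size + 1) := Nat.one_le_pow _ _ (by omega)
  have h3 : 24 ≤ 24 * (n + 1) * (3 * Ω.size) ^ (Nat.log 2 Ω.size + 1) := by nlinarith
  have h1 := bigU_len (fun j => if Ω.node j = .inl true then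
      reachP Ω (Nat.log 2 Ω.size + 1) Ω.root j else noneP _) (List.finRange Ω.size)
      (24 * (n + 1) * (3 * Ω.size) ^ (Nat.log 2 Ω.size + 1)) (fun j => by
        split_ifs
        · exact reachP_len _ _ _ _
        · exact le_trans (by simp [noneP, Prog.len, Form.len]) h3)
  rw [List.length_finRange] at h1
  unfold transl
  rw [pow_succ (3 * Ω.size) (Nat.log 2 Ω.size + 1), ← mul_assoc]
  generalize 24 * (n + 1) * (3 * Ω.size) ^ (Nat.log 2 Ω.size + 1) = L at *
  nlinarith

lemma asympt (c δ : ℝ) (hc : 0 < c) (hδ : 0 < δ) :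
    ∃ N0 : ℕ, ∀ N : ℕ, N0 ≤ N →
      ((24 * (N + 1) * (3 * N) ^ (Nat.log 2 N + 2) : ℕ) : ℝ) < 2 ^ (c * (N : ℝ) ^ δ) := by
  have hr : (1 : ℝ) < 2 ^ δ := Real.one_lt_rpow (by norm_num) hδ
  have h1 := tendsto_pow_const_div_const_pow_of_one_lt 2 hr
  obtain ⟨u0, hu0⟩ := eventually_atTop.1
    ((h1.eventually (gt_mem_nhds (show (0 : ℝ) < c / 4 by positivity))).and
      (eventually_ge_atTop 4))
  refine ⟨2 ^ u0, fun N hN => ?_⟩
  have hN0 : N ≠ 0 := by
    have : 0 < 2 ^ u0 := by positivity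
    omega
  set u := Nat.log 2 N with hu
  have hu1 : u0 ≤ u := Nat.le_log_of_pow_le (by norm_num) hN
  obtain ⟨a1, a2⟩ := hu0 u hu1
  have b1 : N < 2 ^ (u + 1) := Nat.lt_pow_succ_log_self (by norm_num) _
  have b2 : 2 ^ u ≤ N := Nat.pow_log_le_self 2 hN0
  have b3 : 24 * (N + 1) * (3 * N) ^ (u + 2) ≤ 2 ^ ((2 * u) ^ 2) := by
    have c1 : 3 * N ≤ 2 ^ (u + 3) := by
      have : 2 ^ (u + 3) = 4 * 2 ^ (u + 1) := by ring
      omega
    have c2 : 24 * (N + 1) ≤ 2 ^ (u + 6) := by
      have : 2 ^ (u + 6) = 32 * 2 ^ (u + 1) := by ring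
      omega
    calc 24 * (N + 1) * (3 * N) ^ (u + 2) ≤ 2 ^ (u + 6) * (2 ^ (u + 3)) ^ (u + 2) := by gcongr
      _ = 2 ^ (u + 6 + (u + 3) * (u + 2)) := by rw [← pow_mul, ← pow_add]
      _ ≤ _ := Nat.pow_le_pow_right (by norm_num) (by nlinarith)
  have b4 : (((2 * u) ^ 2 : ℕ) : ℝ) < c * (N : ℝ) ^ δ := by
    have d1 : ((2 : ℝ) ^ δ) ^ u ≤ (N : ℝ) ^ δ := by
      rw [← Real.rpow_natCast, ← Real.rpow_mul (by norm_num), mul_comm,
        Real.rpow_mul (by norm_num), Real.rpow_natCast]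
      apply Real.rpow_le_rpow (by positivity) _ hδ.le
      exact_mod_cast b2
    rw [div_lt_iff₀ (by positivity)] at a1
    push_cast
    nlinarith
  calc ((24 * (N + 1) * (3 * N) ^ (u + 2) : ℕ) : ℝ) ≤ ((2 ^ ((2 * u) ^ 2) : ℕ) : ℝ) := by
        exact_mod_cast b3
    _ = (2 : ℝ) ^ ((((2 * u) ^ 2 : ℕ) : ℝ)) := by rw [Real.rpow_natCast]; push_cast; rfl
    _ < _ := Real.rpow_lt_rpow_of_exponent_lt (by norm_num) b4

theorem upper : ∃ τ : ∀ n : ℕ, BDD (Fin n ⊕ Fin n) → Prog (Fin n), Correct τ ∧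
    (∀ (n : ℕ) (Ω : BDD (Fin n ⊕ Fin n)),
      (τ n Ω).len ≤ 24 * (n + 1) * (3 * Ω.size) ^ (Nat.log 2 Ω.size + 2)) ∧
    ∀ c δ : ℝ, 0 < c → 0 < δ → ∃ N0 : ℕ, ∀ (n : ℕ) (Ω : BDD (Fin n ⊕ Fin n)),
      n ≤ Ω.size → N0 ≤ Ω.size → ((τ n Ω).len : ℝ) < 2 ^ (c * (Ω.size : ℝ) ^ δ) := by
  refine ⟨transl, transl_correct, transl_len, fun c δ hc hδ => ?_⟩
  obtain ⟨N0, h⟩ := asympt c δ hc hδ
  refine ⟨N0, fun n Ω h1 h2 => lt_of_le_of_lt ?_ (h _ h2)⟩
  have := transl_len n Ω
  have h3 : 24 * (n + 1) * (3 * Ω.size) ^ (Nat.log 2 Ω.size + 2) ≤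
      24 * (Ω.size + 1) * (3 * Ω.size) ^ (Nat.log 2 Ω.size + 2) := by gcongr
  exact_mod_cast this.trans h3

end Pool.Agent.MP_811ee8_lc.H81
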